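import Pool.Agent.Q22.Frob

/-! Frobenius partitions of infinite groups: the three properties of the finite case all fail. -/

namespace Pool.Agent.Results.MP_c23b5e_al.AllThreeFail

open Q22.Frob

/-- There is an infinite group `Γ` with a nontrivial Frobenius partition `{Γ₁} ∪ 𝒜` for which
(i) uniqueness fails, (ii) `𝒜` has two members that are not isomorphic and (iii) no member `A`
of `𝒜` satisfies `Γ = Γ₁ ⋊ A`. -/
theorem result :
    ∃ (Γ : Type) (_ : Group Γ) (Γ₁ : Subgroup Γ) (𝒜 : Set (Subgroup Γ)),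
      Infinite Γ ∧ IsFrobeniusPartition Γ₁ 𝒜 ∧
      (∃ (Γ₁' : Subgroup Γ) (𝒜' : Set (Subgroup Γ)),
        IsFrobeniusPartition Γ₁' 𝒜' ∧ ¬ (Γ₁' = Γ₁ ∧ 𝒜' = 𝒜)) ∧
      (∃ A ∈ 𝒜, ∃ B ∈ 𝒜, ¬ Nonempty (A ≃* B)) ∧
      (∀ A ∈ 𝒜, ¬ Subgroup.IsComplement' Γ₁ A) := by
  refine ⟨FreeGroup (Fin 3), inferInstance, ⊥, 𝒟 ρ.range, ?_, part2,
    ⟨⊥, 𝒞 (Fin 3), part1, fun h => ne_parts h.2.symm⟩,
    ⟨ρ.range, range_mem, C c, Cc_mem, not_iso⟩, fun A hA => no_complement part2 A hA⟩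
  refine Infinite.of_injective (fun n : ℤ => a ^ n) fun m n h => zpow_inj a_ne h

end Pool.Agent.Results.MP_c23b5e_al.AllThreeFail
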